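import Pool.Agent.Work.MP_497bf6_gt.M0.Fin

namespace Pool.Agent.Results.MP_497bf6_gt.NoPropertyT

/-- The generators: `a i` stands for the Dehn twist about the Humphries curve `c i` of the closed
surface of genus three. -/
abbrev a (i : Fin 7) : FreeGroup (Fin 7) := FreeGroup.of i

/-- The Humphries curves that meet once: the chain `c 1, ..., c 6`, and `c 0` with `c 4`.
All other pairs are disjoint. -/
def meet : List (Fin 7 × Fin 7) := [(1, 2), (2, 3), (3, 4), (4, 5), (5, 6), (0, 4)]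

/-- The product `a i * a j * ...` of the generators in a list. -/
def w (l : List (Fin 7)) : FreeGroup (Fin 7) := (l.map a).prod

/-- Conjugation. -/
def cj (u x : FreeGroup (Fin 7)) : FreeGroup (Fin 7) := u * x * u⁻¹

/-- The auxiliary twists of the presentation of Wajnryb. -/
def b0 : FreeGroup (Fin 7) := cj (w [4, 3, 2, 1, 1, 2, 3, 4]) (a 0)

def b1 : FreeGroup (Fin 7) := cj (w [4, 5, 3, 4])⁻¹ (a 0)

def b2 : FreeGroup (Fin 7) := cj (w [2, 3, 1, 2])⁻¹ b1

def b3 : FreeGroup (Fin 7) :=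
  cj (w [6, 5, 4, 3, 2] * cj (w [6, 5])⁻¹ b1 * (w [4, 3, 2, 1])⁻¹) (a 0)

/-- The twist about the curve `c 7` that extends the chain on the closed surface. -/
def d : FreeGroup (Fin 7) :=
  cj ((w [0, 4, 5, 6])⁻¹ * w [3, 4, 5, 6, 2, 3, 4, 5, 1, 2, 3, 4]) (a 0)

/-- The hyperelliptic word. -/
def h : FreeGroup (Fin 7) := w [6, 5, 4, 3, 2, 1, 1, 2, 3, 4, 5, 6]

/-- The relations of Wajnryb, as pairs of sides: 3-chain, lantern, hyperelliptic. -/
def wajnryb : List (FreeGroup (Fin 7) × FreeGroup (Fin 7)) :=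
  [(w [1, 2, 3] ^ 4, a 0 * b0), (a 0 * b2 * b1, w [1, 3, 5] * b3), (h * d, d * h)]

/-- The relations of Matsumoto, of types `A4 = A5`, `E6 = E7`, and `D5` for the closed surface. -/
def matsumoto : List (FreeGroup (Fin 7) × FreeGroup (Fin 7)) :=
  [(w [0, 2, 3, 4] ^ 10, w [0, 1, 2, 3, 4] ^ 6),
   (w [0, 2, 3, 4, 5, 6] ^ 12, w [0, 1, 2, 3, 4, 5, 6] ^ 9),
   (a 1 ^ 4, w [0, 3, 4, 5, 6] ^ 8)]

/-- The relators. -/
def rels : Set (FreeGroup (Fin 7)) :=
  {r | (∃ i j, (i, j) ∈ meet ∧ r = a i * a j * a i * (a j * a i * a j)⁻¹) ∨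
    (∃ i j, (i, j) ∉ meet ∧ (j, i) ∉ meet ∧ r = a i * a j * (a j * a i)⁻¹) ∨
    ∃ p ∈ wajnryb ++ matsumoto, r = p.1 * p.2⁻¹}

/-- The mapping class group of the closed orientable surface of genus three. -/
abbrev Mod3 := PresentedGroup rels

/-- A unitary representation: an action by complex linear maps that preserve the inner product. -/
structure IsUnitaryRep {G H : Type} [Group G] [NormedAddCommGroup H] [InnerProductSpace ℂ H]
    (ρ : G → H → H) : Prop where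
  one : ∀ v, ρ 1 v = v
  mul : ∀ g h v, ρ (g * h) v = ρ g (ρ h v)
  linear : ∀ g, IsLinearMap ℂ (ρ g)
  inner : ∀ g x y, inner ℂ (ρ g x) (ρ g y) = inner ℂ x y

/-- The first cohomology does not vanish: some cocycle is not a coboundary. -/
def H1NeZero {G H : Type} [Group G] [AddCommGroup H] (ρ : G → H → H) : Prop :=
  ∃ c : G → H, (∀ g h, c (g * h) = c g + ρ g (c h)) ∧ ¬ ∃ v, ∀ g, c g = ρ g v - v

open Pool.Agent.IV

theorem c1 : ∀ p ∈ meet,
    chk 1 (code (a p.1 * a p.2 * a p.1 * (a p.2 * a p.1 * a p.2)⁻¹).toWord) = true := by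
  decide +kernel

theorem c2 : ∀ i j : Fin 7, (i, j) ∉ meet → (j, i) ∉ meet →
    chk 1 (code (a i * a j * (a j * a i)⁻¹).toWord) = true := by
  decide +kernel

theorem c3 :
    (wajnryb ++ matsumoto).all (fun p => chk 1 (code (p.1 * p.2⁻¹).toWord)) = true := by
  decide +kernel

theorem c4 : chk 0 (code ((a 1 * (a 2)⁻¹ * a 3) ^ 16).toWord) = true ∧
    nz (code ((a 1 * (a 2)⁻¹ * a 3) ^ 16).toWord) 22 = false := by
  decide +kernel

theorem rels_one : ∀ r ∈ rels, FreeGroup.lift gen r = 1 := by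
  rintro r (⟨i, j, h1, rfl⟩ | ⟨i, j, h1, h2, rfl⟩ | ⟨p, hp, rfl⟩)
  · exact Phi0_eq_one _ (c1 (i, j) h1)
  · exact Phi0_eq_one _ (c2 i j h1 h2)
  · exact Phi0_eq_one _ (List.all_eq_true.1 c3 p hp)

theorem result : ∃ (H : Type) (_ : NormedAddCommGroup H) (_ : InnerProductSpace ℂ H)
    (_ : CompleteSpace H) (ρ : Mod3 → H → H),
    IsUnitaryRep ρ ∧ (Set.range ρ).Finite ∧ H1NeZero ρ := by
  let Φ : Mod3 →* (V ≃ᵃⁱ[ℂ] V) := PresentedGroup.toGroup rels_one
  refine ⟨V, inferInstance, inferInstance, inferInstance, fun g v => linPart (Φ g) v,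
    ⟨fun v => by simp, fun g h v => by simp, fun g => ⟨map_add _, map_smul _⟩,
      fun g x y => LinearIsometryEquiv.inner_map_map _ x y⟩, finite_range Φ fun g => ?_,
    fun g => Φ g 0, fun g h => ?_, ?_⟩
  · obtain ⟨r, rfl⟩ := PresentedGroup.mk_surjective rels g
    exact Phi0_mem r
  · simp only [map_mul]
    rw [add_comm]
    exact linPart_apply (Φ g) (Φ h 0)
  · rintro ⟨v, hv⟩
    have h1 := hv (PresentedGroup.mk rels ((a 1 * (a 2)⁻¹ * a 3) ^ 16))
    have h2 : Φ (PresentedGroup.mk rels ((a 1 * (a 2)⁻¹ * a 3) ^ 16)) =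
      Phi0 ((a 1 * (a 2)⁻¹ * a 3) ^ 16) := rfl
    simp only [h2, linPart_eq_one _ c4.1] at h1
    exact Phi0_zero_ne _ (by norm_num) c4.2 (by simpa using h1)

end Pool.Agent.Results.MP_497bf6_gt.NoPropertyT
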