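import Pool.Agent.Work.MP_497bf6_gt.Asm

namespace Pool.Agent.Results.MP_497bf6_gt.RealMod

open ContinuousMap

section general
variable {X : Type} [TopologicalSpace X]

/-- The homeomorphism `h` fixes the point `p`, and the image of the loop `γ` is homotopic to `γ`
through loops that avoid `p`. -/
def Keeps (p : X) (γ : C(Circle, X)) (h : X ≃ₜ X) : Prop :=
  h p = p ∧ HomotopicWith γ ((h : C(X, X)).comp γ) fun f => ∀ u, f u ≠ p

/-- Isotopy: homotopy through homeomorphisms that fix the point `p`. -/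
def Isotopic (p : X) (f h : X ≃ₜ X) : Prop :=
  HomotopicWith (f : C(X, X)) (h : C(X, X)) fun k => IsHomeomorph k ∧ k p = p

/-- The group of homeomorphisms that fix `p` and keep the loop `γ`, which avoids `p`. -/
def HomeoPos (p : X) (γ : C(Circle, X)) (hγ : ∀ u, γ u ≠ p) : Subgroup (X ≃ₜ X) where
  carrier := {h | Keeps p γ h}
  one_mem' := ⟨rfl, HomotopicWith.refl _ hγ⟩
  mul_mem' := by
    rintro a b ⟨a1, a2⟩ ⟨b1, ⟨H⟩⟩
    exact ⟨by simp [a1, b1], a2.trans ⟨⟨(ContinuousMap.Homotopy.refl (a : C(X, X))).comp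
      H.toHomotopy, fun t u e => H.prop t u (a.injective (e.trans a1.symm))⟩⟩⟩
  inv_mem' := by
    rintro a ⟨a1, ⟨H⟩⟩
    have a2 : a.symm p = p := a.symm_apply_eq.2 a1.symm
    exact ⟨a2, HomotopicWith.symm ⟨⟨((ContinuousMap.Homotopy.refl
      (a.symm : C(X, X))).comp H.toHomotopy).cast rfl (by ext; simp), fun t u e =>
        H.prop t u (a.symm.injective (e.trans a2.symm))⟩⟩⟩

/-- Isotopy as a congruence on this group. -/
def isotopy (p : X) (γ : C(Circle, X)) (hγ : ∀ u, γ u ≠ p) : Con (HomeoPos p γ hγ) where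
  r f h := Isotopic p f.1 h.1
  iseqv := ⟨fun f => HomotopicWith.refl _ ⟨f.1.isHomeomorph, f.2.1⟩, fun h => h.symm,
    fun h h' => h.trans h'⟩
  mul' := by
    rintro a b c d ⟨H⟩ ⟨K⟩
    exact ⟨⟨H.toHomotopy.comp K.toHomotopy, fun t => ⟨(H.prop t).1.comp (K.prop t).1,
      (congrArg _ (K.prop t).2).trans (H.prop t).2⟩⟩⟩

/-- The group of isotopy classes. -/
def MCG (p : X) (γ : C(Circle, X)) (hγ : ∀ u, γ u ≠ p) : Type := (isotopy p γ hγ).Quotient

instance (p : X) (γ : C(Circle, X)) (hγ : ∀ u, γ u ≠ p) : Group (MCG p γ hγ) :=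
  (isotopy p γ hγ).group

end general

theorem loop_ne (g : ℕ) (u : Circle) : SurfMod.loop g u ≠ SurfMod.ctr g := by
  obtain ⟨H⟩ := (SurfMod.HomeoPos g).one_mem.2
  simpa using H.prop 0 u

/-- The mapping class group of the closed orientable surface of genus `g` with one marked point. -/
abbrev Mod (g : ℕ) : Type := MCG (SurfMod.ctr g) (SurfMod.loop g) (loop_ne g)

/-- A unitary representation: an action by complex linear maps that preserve the inner product. -/
structure IsUnitaryRep {G H : Type} [Group G] [NormedAddCommGroup H] [InnerProductSpace ℂ H]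
    (ρ : G → H → H) : Prop where
  one : ∀ v, ρ 1 v = v
  mul : ∀ g h v, ρ (g * h) v = ρ g (ρ h v)
  linear : ∀ g, IsLinearMap ℂ (ρ g)
  inner : ∀ g x y, inner ℂ (ρ g x) (ρ g y) = inner ℂ x y

/-- The first cohomology does not vanish: some cocycle is not a coboundary. -/
def H1NeZero {G H : Type} [Group G] [AddCommGroup H] (ρ : G → H → H) : Prop :=
  ∃ c : G → H, (∀ g h, c (g * h) = c g + ρ g (c h)) ∧ ¬ ∃ v, ∀ g, c g = ρ g v - v

theorem result : ∃ (H : Type) (_ : NormedAddCommGroup H) (_ : InnerProductSpace ℂ H)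
    (_ : CompleteSpace H) (ρ : Mod 3 → H → H),
    IsUnitaryRep ρ ∧ (Set.range ρ).Finite ∧ H1NeZero ρ := by
  obtain ⟨ρ, c, h1, h2, h3⟩ := Pool.Agent.IvT.main
  refine ⟨Pool.Agent.IvT.V, inferInstance, inferInstance, inferInstance,
    fun (g : SurfMod.Mod 3) v => ρ g v,
    ⟨fun v => DFunLike.congr_fun ρ.map_one v,
      fun (g h : SurfMod.Mod 3) v => DFunLike.congr_fun (ρ.map_mul g h) v,
      fun g => ⟨map_add _, map_smul _⟩,
      fun g x y => LinearIsometryEquiv.inner_map_map _ x y⟩, ?_, c, h2, h3⟩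
  refine (h1.image fun u (v : Pool.Agent.IvT.V) => u v).subset ?_
  rintro _ ⟨g, rfl⟩
  exact ⟨_, ⟨g, rfl⟩, rfl⟩

end Pool.Agent.Results.MP_497bf6_gt.RealMod
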